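import Pool.Agent.H335.TC.Rec

/-!
# A non-elementary group no nontrivial element of which lies in its own relative Tits core

The group is the group `K` of the library (a compactly generated group of permutations of the
finite words over the natural numbers, generated by a compact group `V` of tree automorphisms and
six involutions, two of which are twisted by a Thompson-like shift `a`).  It is not elementary
because every continuous homomorphism from `K` to an elementary group kills the nontrivial closed
normal subgroup `M` (`kill` below).  Every element `g ≠ 1` of `K` normalises an open subgroup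
that does not contain `g` (`Pool.Agent.H335.TC.exists_open`); such a subgroup contains the closures
of `con g` and of `con g⁻¹`.

The definitions follow the problem file word for word.  The class `Elementary` is the least class
closed under the four rules; since every rule speaks about an arbitrary group on an arbitrary type,
the class is closed under isomorphism of topological groups.
-/

set_option autoImplicit false

namespace Pool.Agent.Results.MP_31f339_al.NoSelfTitsCore

open Topology Filter

/-- Totally disconnected locally compact second countable (Hausdorff topological) groups. -/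
structure IsTDLCSC (G : Type) [Group G] [TopologicalSpace G] : Prop where
  isTopologicalGroup : IsTopologicalGroup G
  t2 : T2Space G
  totallyDisconnected : TotallyDisconnectedSpace G
  locallyCompact : LocallyCompactSpace G
  secondCountable : SecondCountableTopology G

/-- The class of elementary groups: the smallest class of t.d.l.c.s.c. groups that contains all
profinite and all discrete ones and is closed under extensions (`N` closed normal in `G`, with `N`
and `G ⧸ N` in the class) and under countable increasing unions of open subgroups. -/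
inductive Elementary : (G : Type) → [Group G] → [TopologicalSpace G] → Prop
  | profinite (G : Type) [Group G] [TopologicalSpace G] (hG : IsTDLCSC G)
      (hc : CompactSpace G) : Elementary G
  | discrete (G : Type) [Group G] [TopologicalSpace G] (hG : IsTDLCSC G)
      (hd : DiscreteTopology G) : Elementary G
  | extension (G : Type) [Group G] [TopologicalSpace G] (hG : IsTDLCSC G) (N : Subgroup G)
      [N.Normal] (hN : IsClosed (N : Set G)) (hE : Elementary N) (hQ : Elementary (G ⧸ N)) :
      Elementary G
  | union (G : Type) [Group G] [TopologicalSpace G] (hG : IsTDLCSC G) (O : ℕ → Subgroup G)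
      (hm : Monotone O) (ho : ∀ i, IsOpen (O i : Set G)) (hU : ∀ x : G, ∃ i, x ∈ O i)
      (hE : ∀ i, Elementary (O i)) : Elementary G

/-- The contraction group `con g = {x | g ^ n * x * g ^ (-n) → 1}`, as a set. -/
def con {G : Type} [Group G] [TopologicalSpace G] (g : G) : Set G :=
  {x | Tendsto (fun n : ℕ => g ^ n * x * (g ^ n)⁻¹) atTop (𝓝 1)}

/-- The relative Tits core of `g`: the subgroup abstractly generated by the closures of `con g`
and of `con g⁻¹`. -/
def relTitsCore {G : Type} [Group G] [TopologicalSpace G] (g : G) : Subgroup G :=
  Subgroup.closure (closure (con g) ∪ closure (con g⁻¹))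

/-! ### Non-elementarity -/

open Pool.Agent.K7.H92.WF in
/-- Continuous homomorphisms from `K` to elementary groups kill `M`. -/
theorem kill (H : Type) [Group H] [TopologicalSpace H] (hE : Elementary H) :
    ∀ f : K →* H, Continuous f → ∀ m ∈ M, f m = 1 := by
  induction hE with
  | profinite G hG hc =>
    intro f hf m hm
    have hG' : TDLCSC G := ⟨hG.1, hG.2, hG.3, hG.4, hG.5⟩
    have h1 : f m ∈ Res G := by
      rw [Res, Subgroup.mem_sInf]
      intro N hN
      have h2 : (N.comap f).Normal := hN.1.comap f
      exact M_le_of_open h2 (hN.2.preimage hf) hm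
    rw [Res_compact hG' hc, Subgroup.mem_bot] at h1
    exact h1
  | discrete G hG hd =>
    intro f hf m hm
    have h1 : IsOpen (f.ker : Set K) := (isOpen_discrete {(1 : G)}).preimage hf
    exact MonoidHom.mem_ker.1 (M_le_of_open inferInstance h1 hm)
  | extension G hG N hN hE hQ ihN ihQ =>
    intro f hf m hm
    have := hG.isTopologicalGroup
    have := hG.t2
    have h1 : ∀ m ∈ M, f m ∈ N := by
      intro m hm
      have := ihQ ((QuotientGroup.mk' N).comp f) (QuotientGroup.continuous_mk.comp hf) m hm
      exact (QuotientGroup.eq_one_iff _).1 this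
    have h3 := ihN ((f.comp Lam).codRestrict N fun k => h1 _ (Lam_mem k))
      ((hf.comp continuous_Lam).subtype_mk _)
    have h4 : M ≤ f.ker := by
      refine M_le_of_Lam inferInstance ?_ fun m hm => ?_
      · exact isClosed_singleton.preimage hf
      · rw [MonoidHom.mem_ker]
        exact congrArg Subtype.val (h3 m hm)
    exact MonoidHom.mem_ker.1 (h4 hm)
  | union G hG O hmono ho hU hE ih =>
    intro f hf m hm
    obtain ⟨-, S, hS, hS1⟩ := K_cg
    obtain ⟨i, hi⟩ := (hS.image hf).elim_directed_cover (fun i => (O i : Set G)) ho
      (fun x _ => Set.mem_iUnion.2 (hU x)) (Monotone.directed_le fun i j hij => hmono hij)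
    have h2 : ∀ k, f k ∈ O i := by
      intro k
      have h3 : (⊤ : Subgroup K).map f ≤ O i := by
        rw [← hS1, MonoidHom.map_closure, Subgroup.closure_le]
        exact hi
      exact h3 ⟨k, trivial, rfl⟩
    have h4 := ih i (f.codRestrict (O i) h2) (hf.subtype_mk _) m hm
    exact congrArg Subtype.val h4

open Pool.Agent.K7.H92.WF in
theorem not_elementary : ¬ Elementary K := by
  intro h
  have h1 := kill K h (MonoidHom.id K) continuous_id _ (tau_mem_M one_ne_zero [])
  have h2 : toP (tauK [1]) [1, 3] = [1, 3] := by
    rw [show tauK [1] = 1 from h1, map_one]; rfl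
  rw [toP_tauK, tau_cons, tau_nil, cone_same, g_cons] at h2
  simp [sw] at h2

/-! ### Relative Tits cores -/

theorem con_subset {G : Type} [Group G] [TopologicalSpace G] {g : G} {O : Subgroup G}
    (hO : IsOpen (O : Set G)) (h : ∀ x, x ∈ O ↔ g * x * g⁻¹ ∈ O) : con g ⊆ O := by
  intro x hx
  have h1 : ∀ᶠ n : ℕ in atTop, g ^ n * x * (g ^ n)⁻¹ ∈ (O : Set G) :=
    hx.eventually (hO.mem_nhds O.one_mem)
  obtain ⟨n, hn⟩ := h1.exists
  clear h1
  induction n with
  | zero => simpa using hn
  | succ n ih =>
    apply ih
    have h2 := (h (g ^ n * x * (g ^ n)⁻¹)).2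
    apply h2
    have e : g * (g ^ n * x * (g ^ n)⁻¹) * g⁻¹ = g ^ (n + 1) * x * (g ^ (n + 1))⁻¹ := by
      rw [pow_succ']; group
    rw [e]
    exact hn

theorem core_le {G : Type} [Group G] [TopologicalSpace G] [IsTopologicalGroup G] {g : G}
    {O : Subgroup G} (hO : IsOpen (O : Set G)) (h : ∀ x, x ∈ O ↔ g * x * g⁻¹ ∈ O) :
    relTitsCore g ≤ O := by
  have hc : IsClosed (O : Set G) := Subgroup.isClosed_of_isOpen O hO
  rw [relTitsCore, Subgroup.closure_le, Set.union_subset_iff]
  refine ⟨closure_minimal (con_subset hO h) hc, closure_minimal (con_subset hO fun x => ?_) hc⟩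
  rw [h (g⁻¹ * x * g⁻¹⁻¹)]
  have e : g * (g⁻¹ * x * g⁻¹⁻¹) * g⁻¹ = x := by group
  rw [e]

/-- **Negative answer.** There is a compactly generated non-elementary t.d.l.c.s.c. group `G` such
that no element `g ≠ 1` of `G` lies in its relative Tits core. -/
theorem result : ∃ (G : Type) (_ : Group G) (_ : TopologicalSpace G),
    IsTDLCSC G ∧ (∃ C : Set G, IsCompact C ∧ Subgroup.closure C = ⊤) ∧ ¬ Elementary G ∧
      ∀ g : G, g ≠ 1 → g ∉ relTitsCore g := by
  refine ⟨Pool.Agent.K7.H92.WF.K, inferInstance, inferInstance, ?_, ?_, not_elementary, ?_⟩
  · have h := Pool.Agent.K7.H92.WF.K_tdlcsc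
    exact ⟨h.1, h.2, h.3, h.4, h.5⟩
  · exact Pool.Agent.K7.H92.WF.K_cg.2
  · intro g hg h
    obtain ⟨O, hO, h1, h2⟩ := Pool.Agent.H335.TC.exists_open g hg
    exact h2 (core_le hO h1 h)

end Pool.Agent.Results.MP_31f339_al.NoSelfTitsCore
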